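import Pool.Agent.Lib.MP_968cc4_an.CMB

/-! Auxiliary lemmas on `Cmb` (linear combinations of the `z α` with bounded coefficient sum),
and on models. Written by helper64. -/

set_option autoImplicit false

namespace Pool.Agent.Atomic.H64

open Finset

theorem cmb_mono {z : ℕ → V} {C C' : ℝ} {v : V} (h : Cmb z C v) (hC : C ≤ C') : Cmb z C' v := by
  obtain ⟨c, hc, hv⟩ := h
  exact ⟨c, hc.trans hC, hv⟩

theorem cmb_smul {z : ℕ → V} {C : ℝ} {v : V} (a : ℝ) (h : Cmb z C v) :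
    Cmb z (|a| * C) (a • v) := by
  obtain ⟨c, hc, hv⟩ := h
  refine ⟨a • c, ?_, ?_⟩
  · rw [n1_smul]
    exact mul_le_mul_of_nonneg_left hc (abs_nonneg a)
  · rw [hv]
    change a • (Finsupp.linearCombination ℝ z c) = Finsupp.linearCombination ℝ z (a • c)
    rw [map_smul]

theorem cmb_zero (z : ℕ → V) : Cmb z 0 0 := by
  refine ⟨0, ?_, ?_⟩
  · rw [n1_zero]
  · simp

theorem cmb_add {z : ℕ → V} {C C' : ℝ} {v v' : V} (h : Cmb z C v) (h' : Cmb z C' v') :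
    Cmb z (C + C') (v + v') := by
  obtain ⟨c, hc, hv⟩ := h
  obtain ⟨c', hc', hv'⟩ := h'
  refine ⟨c + c', ?_, ?_⟩
  · exact (n1_add_le c c').trans (add_le_add hc hc')
  · rw [hv, hv']
    change Finsupp.linearCombination ℝ z c + Finsupp.linearCombination ℝ z c'
      = Finsupp.linearCombination ℝ z (c + c')
    rw [map_add]

theorem cmb_sum {z : ℕ → V} {n : ℕ} {C : ℕ → ℝ} {v : ℕ → V} (h : ∀ s, s < n → Cmb z (C s) (v s)) :
    Cmb z (∑ s ∈ range n, C s) (∑ s ∈ range n, v s) := by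
  induction n with
  | zero => simpa using cmb_zero z
  | succ n ih =>
    rw [Finset.sum_range_succ, Finset.sum_range_succ]
    exact cmb_add (ih fun s hs => h s (by omega)) (h n (by omega))

/-- absolutely convex combinations -/
theorem cmb_comb {z : ℕ → V} {C : ℝ} (hC : 0 ≤ C) {n : ℕ} {a : ℕ → ℝ} {v : ℕ → V}
    (h : ∀ s, s < n → Cmb z C (v s)) (ha : ∑ s ∈ range n, |a s| ≤ 1) :
    Cmb z C (∑ s ∈ range n, a s • v s) := by
  have h1 : Cmb z (∑ s ∈ range n, |a s| * C) (∑ s ∈ range n, a s • v s) :=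
    cmb_sum fun s hs => cmb_smul (a s) (h s hs)
  refine cmb_mono h1 ?_
  rw [← Finset.sum_mul]
  calc (∑ s ∈ range n, |a s|) * C ≤ 1 * C := mul_le_mul_of_nonneg_right ha hC
    _ = C := one_mul C

/-- averages -/
theorem cmb_avg {z : ℕ → V} {C : ℝ} (hC : 0 ≤ C) {n : ℕ} {v : ℕ → V}
    (h : ∀ s, s < n → Cmb z C (v s)) :
    Cmb z C ((n : ℝ)⁻¹ • ∑ s ∈ range n, v s) := by
  rw [Finset.smul_sum]
  refine cmb_comb hC h ?_
  rw [Finset.sum_const, Finset.card_range, nsmul_eq_mul, abs_of_nonneg (by positivity)]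
  rcases Nat.eq_zero_or_pos n with hn | hn
  · subst hn; simp
  · rw [mul_inv_cancel₀]
    exact_mod_cast hn.ne'

/-- half differences -/
theorem cmb_half_sub {z : ℕ → V} {C : ℝ} {v v' : V} (h : Cmb z C v) (h' : Cmb z C v') :
    Cmb z C ((1 / 2 : ℝ) • (v - v')) := by
  have h1 := cmb_add (cmb_smul (1 / 2 : ℝ) h) (cmb_smul (-(1 / 2) : ℝ) h')
  have h2 : (1 / 2 : ℝ) • v + (-(1 / 2) : ℝ) • v' = (1 / 2 : ℝ) • (v - v') := by
    rw [smul_sub, neg_smul, sub_eq_add_neg]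
  rw [h2] at h1
  refine cmb_mono h1 (le_of_eq ?_)
  rw [abs_neg, abs_of_pos (by norm_num : (0 : ℝ) < 1 / 2)]
  ring

theorem bal_n1 {b : V} (h : Bal b) : n1 b = 1 := by
  have h1 := n1_prt_add b
  rw [h.1, h.2] at h1
  linarith

theorem bal_prt {b : V} (h : Bal b) (σ : Bool) : n1 (prt σ b) = 1 / 2 := by
  cases σ
  · exact h.2
  · exact h.1

theorem le_m_real (k : ℕ) : (2 : ℝ) ^ 64 ≤ (m k : ℝ) := by
  have := m_ge k
  exact_mod_cast this

/-- `ε_k` is tiny -/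
theorem eps_le (k : ℕ) : eps k ≤ (1 / 2 ^ 164 : ℝ) / 4 ^ k := by
  have h1 := eps_m_le k
  have h2 := le_m_real k
  have h3 := eps_pos k
  have h4 : eps k * 2 ^ 64 ≤ eps k * m k := mul_le_mul_of_nonneg_left h2 h3.le
  have h5 : eps k * 2 ^ 64 ≤ (1 / 2 ^ 100 : ℝ) / 4 ^ k := h4.trans h1
  have h6 : eps k ≤ ((1 / 2 ^ 100 : ℝ) / 4 ^ k) / 2 ^ 64 := by
    rw [le_div_iff₀ (by positivity)]
    exact h5
  refine h6.trans (le_of_eq ?_)
  rw [div_div, div_div, div_div, mul_comm ((4 : ℝ) ^ k) (2 ^ 64), ← mul_assoc, ← pow_add]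

theorem mul_eps_le (k : ℕ) {c : ℝ} (hc : c ≤ 2 ^ 64) : c * eps k ≤ eps k * m k := by
  have h2 := le_m_real k
  have h3 := eps_pos k
  have h4 : eps k * 2 ^ 64 ≤ eps k * m k := mul_le_mul_of_nonneg_left h2 h3.le
  nlinarith

end Pool.Agent.Atomic.H64
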